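import Pool.Agent.H2.ED.Targets
import Pool.Agent.H63.VZ.JDT

/-!
JPR: the jacobian determinant in affine coordinates (row JPR of the board ed_modules).
-/

set_option autoImplicit false

open MvPolynomial
open Pool.Agent.H12.ZD (pmap)
open Pool.Agent.H18.HIT Pool.Agent.H18.HX Pool.Agent.H18.VZ
open Pool.Agent.H8.TD (lc dg Wsp)
open Pool.Agent.H2.ED

namespace Pool.Agent.H89.ED

theorem jpr_not_dvd {N : ℕ} {k : Type} [Field k] {P : Po (N + 1) k} (hirr : Irreducible P)
    (hm : Mny P) (j : Fin N) : ¬ P ∣ X j.succ := by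
  rintro ⟨a, ha⟩
  have hm' : (finSuccEquiv k N P).Monic := hm
  have h1 := congrArg (finSuccEquiv k N) ha
  rw [map_mul, finSuccEquiv_X_succ] at h1
  have h0 : finSuccEquiv k N a ≠ 0 := by
    intro h
    rw [h, mul_zero, Polynomial.C_eq_zero] at h1
    exact X_ne_zero _ h1
  have h2 := congrArg Polynomial.natDegree h1
  rw [Polynomial.natDegree_C, Polynomial.natDegree_mul hm'.ne_zero h0] at h2
  have h3 : finSuccEquiv k N P = 1 := hm'.natDegree_eq_zero.1 (by omega)
  have h4 : P = 1 := (finSuccEquiv k N).injective (by rw [h3, map_one])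
  exact hirr.not_isUnit (h4 ▸ isUnit_one)

theorem jpr_euler {N : ℕ} {k : Type} [Field k] (P q : Po (N + 1) k) (r s : ℕ)
    (hP : P.IsHomogeneous r) (hq : q.IsHomogeneous s) :
    ∑ l : Fin N, X l.succ * dd P l q =
      (s : Po (N + 1) k) * pderiv 0 P * q - (r : Po (N + 1) k) * P * pderiv 0 q := by
  have h1 := hP.sum_X_mul_pderiv
  have h2 := hq.sum_X_mul_pderiv
  rw [Fin.sum_univ_succ, nsmul_eq_mul] at h1 h2
  have h3 : ∀ l : Fin N, X l.succ * dd P l q = pderiv 0 P * (X l.succ * pderiv l.succ q) -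
      pderiv 0 q * (X l.succ * pderiv l.succ P) := by
    intro l
    unfold dd
    simp only [Derivation.coe_sub, Derivation.coe_smul, Pi.sub_apply, Pi.smul_apply, smul_eq_mul]
    ring
  rw [Finset.sum_congr rfl (fun l _ => h3 l), Finset.sum_sub_distrib, ← Finset.mul_sum,
    ← Finset.mul_sum]
  linear_combination pderiv 0 P * h2 - pderiv 0 q * h1

theorem pf_JPR (_hFLD : T_FLD) : T_JPR := by
  classical
  intro ν r₀ d k _ _ P T hyp hd hT hS hjac
  have hirr := hyp.irr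
  have hm := hyp.mon
  have := Pool.Agent.H37.HX.isPrime_span hirr
  obtain ⟨mk, hmk⟩ : ∃ mk : Po (ν + 2) k →ₐ[k] Po (ν + 2) k ⧸ Ideal.span {P},
    mk = Ideal.Quotient.mkₐ k (Ideal.span {P}) := ⟨_, rfl⟩
  have hmk0 : ∀ x : Po (ν + 2) k, mk x = 0 ↔ P ∣ x := by
    intro x
    rw [hmk, Ideal.Quotient.mkₐ_eq_mk, Ideal.Quotient.eq_zero_iff_mem, Ideal.mem_span_singleton]
  have hJ : (mk.mapMatrix (jm P T)).det = 0 := by
    rw [← AlgHom.map_det]
    exact (hmk0 _).2 hjac
  have hM : (mk.mapMatrix (Matrix.of fun l i : Fin (ν + 1) => dd P l (T i.succ))).det ≠ 0 := by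
    rw [← AlgHom.map_det]
    exact fun h => Pool.Agent.H63.VZ.pf_JDT (ν + 1) k P T hirr hm hS ((hmk0 _).1 h)
  obtain ⟨v, hv, hJv⟩ := Matrix.exists_mulVec_eq_zero_iff.mpr hJ
  have hT1 : mk (T 1) ≠ 0 := by
    intro h
    have h1 : aeval T (X 1 : Po (ν + 2) k) ∈ Ideal.span {P} := by
      rw [aeval_X, Ideal.mem_span_singleton]
      exact (hmk0 _).1 h
    have h2 := hS.inj _ h1
    rw [Ideal.mem_span_singleton] at h2
    exact jpr_not_dvd hirr hm (0 : Fin (ν + 1)) h2
  have hX1 : mk (X (Fin.succ (0 : Fin (ν + 1)))) ≠ 0 := fun h =>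
    jpr_not_dvd hirr hm (0 : Fin (ν + 1)) ((hmk0 _).1 h)
  have hP0 : mk (pderiv 0 P) ≠ 0 := fun h =>
    Pool.Agent.H33.HX.chh_pd hirr hm ((hmk0 _).1 h)
  have : CharZero (Po (ν + 2) k ⧸ Ideal.span {P}) :=
    charZero_of_injective_algebraMap (algebraMap k _).injective
  have hd0 : ((d : ℕ) : Po (ν + 2) k ⧸ Ideal.span {P}) ≠ 0 := Nat.cast_ne_zero.2 (by omega)
  obtain ⟨t, ht⟩ : ∃ t, t = ∑ j, v j * mk (dd P (Fin.succ j) (T 1)) := ⟨_, rfl⟩
  obtain ⟨c, hc⟩ : ∃ c, c = (d : Po (ν + 2) k ⧸ Ideal.span {P}) * mk (pderiv 0 P) * mk (T 1) :=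
    ⟨_, rfl⟩
  have hc0 : c ≠ 0 := by
    rw [hc]
    exact mul_ne_zero (mul_ne_zero hd0 hP0) hT1
  have hS1 : ∀ i : Fin (ν + 1), mk (T 1) * ∑ j, v j * mk (dd P (Fin.succ j) (T i.succ)) =
      mk (T i.succ) * t := by
    intro i
    refine Fin.cases ?_ (fun i => ?_) i
    · rw [ht]
      rfl
    · have h1 := congrFun hJv i
      have h2 : ∑ j, (mk (dd P (Fin.succ j) (T i.succ.succ)) * mk (T 1) -
          mk (T i.succ.succ) * mk (dd P (Fin.succ j) (T 1))) * v j = 0 := by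
        simp only [← map_mul, ← map_sub]
        exact h1
      rw [ht, Finset.mul_sum, Finset.mul_sum, ← sub_eq_zero, ← Finset.sum_sub_distrib, ← h2]
      refine Finset.sum_congr rfl fun j _ => ?_
      ring
  have hw : Matrix.vecMul (fun l : Fin (ν + 1) => c * (Fin.cons 0 v : Fin (ν + 1) → _) l -
      t * mk (X l.succ)) (mk.mapMatrix (Matrix.of fun l i : Fin (ν + 1) => dd P l (T i.succ))) =
      0 := by
    funext i
    change ∑ l : Fin (ν + 1), (c * (Fin.cons 0 v : Fin (ν + 1) → _) l - t * mk (X l.succ)) *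
      mk (dd P l (T i.succ)) = 0
    have he := congrArg mk (jpr_euler P (T i.succ) r₀ d hyp.hom (hT _))
    rw [map_sum, map_sub, map_mul, map_mul, map_mul, map_mul, map_natCast,
      (hmk0 P).2 dvd_rfl, mul_zero, zero_mul, sub_zero] at he
    have h3 : ∑ l : Fin (ν + 1), (c * (Fin.cons 0 v : Fin (ν + 1) → _) l - t * mk (X l.succ)) *
        mk (dd P l (T i.succ)) =
        c * (∑ l : Fin (ν + 1), (Fin.cons 0 v : Fin (ν + 1) → _) l * mk (dd P l (T i.succ))) -
        t * ∑ l : Fin (ν + 1), mk (X l.succ * dd P l (T i.succ)) := by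
      rw [Finset.mul_sum, Finset.mul_sum, ← Finset.sum_sub_distrib]
      refine Finset.sum_congr rfl fun l _ => ?_
      rw [map_mul]
      ring
    rw [h3, he, Fin.sum_univ_succ]
    simp only [Fin.cons_zero, Fin.cons_succ, zero_mul, zero_add]
    have h4 := hS1 i
    rw [hc]
    linear_combination (d : Po (ν + 2) k ⧸ Ideal.span {P}) * mk (pderiv 0 P) * h4
  have hw0 := Matrix.eq_zero_of_vecMul_eq_zero hM hw
  have ht0 : t = 0 := by
    have h1 := congrFun hw0 0
    simp only [Fin.cons_zero, mul_zero, zero_sub, Pi.zero_apply, neg_eq_zero] at h1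
    rcases mul_eq_zero.1 h1 with h2 | h2
    · exact h2
    · exact absurd h2 hX1
  apply hv
  funext j
  have h1 := congrFun hw0 j.succ
  simp only [Fin.cons_succ, ht0, zero_mul, sub_zero, Pi.zero_apply] at h1
  rcases mul_eq_zero.1 h1 with h2 | h2
  · exact absurd h2 hc0
  · exact h2

end Pool.Agent.H89.ED
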